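import Mathlib

open scoped InnerProductSpace BoundedContinuousFunction ComplexOrder
open Filter Topology

namespace Pool.Agent.Results.MP_fdf6c3_an.One

variable {H : Type} [NormedAddCommGroup H] [InnerProductSpace ℂ H] [CompleteSpace H]

/-- the essential spectrum: `z - A` is not invertible modulo compact operators -/
def essSpec (A : H →L[ℂ] H) : Set ℂ :=
  {z | ¬ ∃ B : H →L[ℂ] H, IsCompactOperator (B * (z • 1 - A) - 1 : H →L[ℂ] H) ∧
    IsCompactOperator ((z • 1 - A) * B - 1 : H →L[ℂ] H)}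

/-- a Banach limit on bounded complex sequences -/
def IsBanachLimit (L : (ℕ →ᵇ ℂ) →ₗ[ℂ] ℂ) : Prop :=
  (∀ f : ℕ →ᵇ ℂ, (∀ n, 0 ≤ f n) → 0 ≤ L f) ∧
  (∀ f g : ℕ →ᵇ ℂ, (∀ n, g n = f (n + 1)) → L g = L f) ∧ L 1 = 1

/-- `A` is the `L`-asymptotic limit of `T` -/
def IsAsymLimit (L : (ℕ →ᵇ ℂ) →ₗ[ℂ] ℂ) (T A : H →L[ℂ] H) : Prop :=
  ∀ (x y : H) (f : ℕ →ᵇ ℂ), (∀ n, f n = ⟪(T ^ n) y, (T ^ n) x⟫_ℂ) → ⟪y, A x⟫_ℂ = L f

lemma cmul_l {K : H →L[ℂ] H} (hK : IsCompactOperator K) (B : H →L[ℂ] H) :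
    IsCompactOperator (B * K : H →L[ℂ] H) := hK.clm_comp B
lemma cmul_r {K : H →L[ℂ] H} (hK : IsCompactOperator K) (B : H →L[ℂ] H) :
    IsCompactOperator (K * B : H →L[ℂ] H) := hK.comp_clm B

lemma compact_of_ess (A : H →L[ℂ] H) (hA : IsStarNormal A) (t : ℂ) (h : essSpec A ⊆ {t}) :
    IsCompactOperator (A - t • 1 : H →L[ℂ] H) := by
  let φ := cfcHom (R := ℂ) hA
  let I : Ideal C(spectrum ℂ A, ℂ) :=
    { carrier := {f | IsCompactOperator (φ f)}
      add_mem' := fun {a b} ha hb => by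
        change IsCompactOperator (φ (a + b))
        rw [map_add]; exact IsCompactOperator.add ha hb
      zero_mem' := by
        change IsCompactOperator (φ 0)
        rw [map_zero]; exact isCompactOperator_zero
      smul_mem' := fun c a ha => by
        change IsCompactOperator (φ (c * a))
        rw [map_mul]; exact cmul_l ha _ }
  have hI : IsClosed (I : Set C(spectrum ℂ A, ℂ)) :=
    isClosed_setOfPred_isCompactOperator.preimage (cfcHom_continuous hA)
  let idd : C(spectrum ℂ A, ℂ) := (ContinuousMap.id ℂ).restrict (spectrum ℂ A)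
  have hid : ∀ c : ℂ, φ (c • 1 - idd) = c • 1 - A := by
    intro c
    rw [map_sub, map_smul, map_one, cfcHom_id hA]
  have : -(t • 1 - idd) ∈ I := by
    rw [← ContinuousMap.idealOfSet_ofIdeal_isClosed hI, ContinuousMap.mem_idealOfSet]
    intro z hz
    by_contra hne
    have hzt : (z : ℂ) ≠ t := by
      rintro e
      apply hne
      simp [idd, e]
    apply hz
    obtain ⟨B, hB, -⟩ := not_not.1 (fun k : (z : ℂ) ∈ essSpec A => hzt (h k))
    set ε : ℝ := 1 / (2 * (‖B‖ + 1)) with hε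
    have hε0 : 0 < ε := by positivity
    have hεB : ‖B‖ * ε ≤ 1 / 2 := by
      rw [hε, mul_one_div, div_le_div_iff₀ (by positivity) (by positivity)]
      linarith
    let g : C(spectrum ℂ A, ℂ) := ⟨fun w => ((max 0 (ε - ‖(z : ℂ) - w‖) : ℝ) : ℂ), by fun_prop⟩
    refine ContinuousMap.mem_setOfIdeal.2 ⟨g, ?_, by simp [g, hε0.le, hε0.ne']⟩
    set u : C(spectrum ℂ A, ℂ) := (z : ℂ) • 1 - idd with hu
    have h1 : ∀ k : ℕ, IsCompactOperator (φ g - B ^ k * φ (u ^ k * g) : H →L[ℂ] H) := by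
      intro k
      induction k with
      | zero => simpa using isCompactOperator_zero
      | succ k ih =>
        have e : φ g - B ^ (k + 1) * φ (u ^ (k + 1) * g) = (φ g - B ^ k * φ (u ^ k * g)) -
            B ^ k * ((B * ((z : ℂ) • 1 - A) - 1) * φ (u ^ k * g)) := by
          rw [pow_succ' u, mul_assoc u, map_mul φ u, hu, hid, pow_succ B]
          noncomm_ring
        rw [e]
        exact IsCompactOperator.sub ih (cmul_l (cmul_r hB _) _)
    have pw : ∀ k : ℕ, ‖B ^ k‖ ≤ ‖(1 : H →L[ℂ] H)‖ * ‖B‖ ^ k := by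
      intro k
      induction k with
      | zero => simp
      | succ k ih =>
        rw [pow_succ, pow_succ, ← mul_assoc]
        exact (norm_mul_le _ _).trans (mul_le_mul_of_nonneg_right ih (norm_nonneg _))
    have h2 : ∀ k : ℕ, ‖B ^ k * φ (u ^ k * g)‖ ≤ ‖(1 : H →L[ℂ] H)‖ * ε * (1 / 2) ^ k := by
      intro k
      have a1 : ‖u ^ k * g‖ ≤ ε ^ k * ε := by
        refine (ContinuousMap.norm_le _ (by positivity)).2 fun w => ?_
        have e : ‖(u ^ k * g) w‖ = ‖(z : ℂ) - w‖ ^ k * max 0 (ε - ‖(z : ℂ) - w‖) := by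
          simp [hu, g, idd]
        rw [e]
        rcases le_total ε ‖(z : ℂ) - w‖ with c | c
        · rw [max_eq_left (by linarith), mul_zero]; positivity
        · rw [max_eq_right (by linarith)]
          gcongr
          linarith [norm_nonneg ((z : ℂ) - w)]
      have a2 := pw k
      have a3 : ‖φ (u ^ k * g)‖ = ‖u ^ k * g‖ := norm_cfcHom A _ hA
      calc _ ≤ ‖B ^ k‖ * ‖φ (u ^ k * g)‖ := norm_mul_le _ _
        _ ≤ (‖(1 : H →L[ℂ] H)‖ * ‖B‖ ^ k) * (ε ^ k * ε) := by rw [a3]; gcongr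
        _ = ‖(1 : H →L[ℂ] H)‖ * ε * (‖B‖ * ε) ^ k := by ring
        _ ≤ _ := by gcongr
    have h3 : Tendsto (fun k : ℕ => B ^ k * φ (u ^ k * g)) atTop (𝓝 0) := by
      refine squeeze_zero_norm h2 ?_
      simpa using (tendsto_pow_atTop_nhds_zero_of_lt_one (r := (1 / 2 : ℝ)) (by norm_num)
        (by norm_num)).const_mul (‖(1 : H →L[ℂ] H)‖ * ε)
    exact isClosed_setOfPred_isCompactOperator.mem_of_tendsto
      (by simpa using h3.const_sub (φ g)) (Eventually.of_forall h1)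
  have h4 : IsCompactOperator (φ (-(t • 1 - idd))) := this
  rwa [map_neg, hid, neg_sub] at h4

lemma avg (K : H →L[ℂ] H) (hK : IsCompactOperator K) (M : ℝ) (hM : 0 < M) (e : ℕ → H)
    (he : Orthonormal ℂ e) (ε : ℝ) (hε : 0 < ε) :
    ∃ N : ℕ, 0 < N ∧ ∀ R : H →L[ℂ] H, ‖R‖ ≤ M →
      ∑ j ∈ Finset.range N, ‖⟪R (e j), K (R (e j))⟫_ℂ‖ ≤ ε * N := by
  have hc := (IsCompactOperator.isCompact_closure_image_closedBall (f := K.toLinearMap) hK M).totallyBounded
  obtain ⟨s, hs, hcov⟩ := Metric.totallyBounded_iff.1 hc (ε / (2 * M)) (by positivity)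
  obtain ⟨s, rfl⟩ := hs.exists_finset_coe
  set c : ℝ := ε / (4 * (s.card + 1)) with hcdef
  have hc0 : 0 < c := by positivity
  set D : ℝ := ∑ f ∈ s, (M * ‖f‖) ^ 2 / c with hD
  obtain ⟨N, hN⟩ := exists_nat_gt (max 0 (4 * D / ε))
  have hN0 : (0 : ℝ) < N := (le_max_left _ _).trans_lt hN
  refine ⟨N, by exact_mod_cast hN0, fun R hR => ?_⟩
  have hn : ∀ j, ‖R (e j)‖ ≤ M := fun j => by
    simpa [he.1 j] using (R.le_opNorm (e j)).trans (mul_le_mul_of_nonneg_right hR (norm_nonneg _))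
  have h1 : ∀ j, ‖⟪R (e j), K (R (e j))⟫_ℂ‖ ≤
      ε / 2 + ∑ f ∈ s, (c + ‖⟪e j, R.adjoint f⟫_ℂ‖ ^ 2 / c) := by
    intro j
    obtain ⟨f, hf, hd⟩ := Set.mem_iUnion₂.1 (hcov (subset_closure
      ⟨R (e j), mem_closedBall_zero_iff.2 (hn j), rfl⟩))
    have hd' : ‖K (R (e j)) - f‖ < ε / (2 * M) := by rwa [Metric.mem_ball, dist_eq_norm] at hd
    have e1 : ⟪R (e j), K (R (e j))⟫_ℂ = ⟪R (e j), K (R (e j)) - f⟫_ℂ + ⟪e j, R.adjoint f⟫_ℂ := by
      rw [ContinuousLinearMap.adjoint_inner_right, inner_sub_right]; ring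
    rw [e1]
    refine (norm_add_le _ _).trans (add_le_add ?_ ?_)
    · calc _ ≤ ‖R (e j)‖ * ‖K (R (e j)) - f‖ := norm_inner_le_norm _ _
        _ ≤ M * (ε / (2 * M)) := by gcongr; exact hn j
        _ = ε / 2 := by field_simp
    · refine le_trans ?_ (Finset.single_le_sum
        (f := fun f => c + ‖⟪e j, R.adjoint f⟫_ℂ‖ ^ 2 / c) (fun _ _ => by positivity) hf)
      generalize hx : ‖⟪e j, R.adjoint f⟫_ℂ‖ = x
      have : x ^ 2 / c * c = x ^ 2 := by field_simp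
      nlinarith [sq_nonneg (x - c)]
  refine (Finset.sum_le_sum fun j _ => h1 j).trans ?_
  simp only [Finset.sum_add_distrib, Finset.sum_const, Finset.card_range, nsmul_eq_mul]
  rw [Finset.sum_comm]
  have h2 : ∑ f ∈ s, ∑ j ∈ Finset.range N, ‖⟪e j, R.adjoint f⟫_ℂ‖ ^ 2 / c ≤ D := by
    refine Finset.sum_le_sum fun f _ => ?_
    rw [← Finset.sum_div]
    gcongr
    refine (he.sum_inner_products_le _).trans ?_
    gcongr
    refine (R.adjoint.le_opNorm f).trans ?_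
    rw [LinearIsometryEquiv.norm_map]
    gcongr
  have h3 : s.card * c ≤ ε / 4 := by
    rw [hcdef, mul_div_assoc', div_le_div_iff₀ (by positivity) (by positivity)]
    nlinarith
  have h4 : 4 * D / ε < N := (le_max_right _ _).trans_lt hN
  rw [div_lt_iff₀ hε] at h4
  nlinarith

lemma L_bound {L : (ℕ →ᵇ ℂ) →ₗ[ℂ] ℂ} (hL : IsBanachLimit L) (f : ℕ →ᵇ ℂ) (a b : ℝ)
    (h : ∀ n, (f n).im = 0 ∧ a ≤ (f n).re ∧ (f n).re ≤ b) : a ≤ (L f).re ∧ (L f).re ≤ b := by
  have h1 := hL.1 (f - (a : ℂ) • 1) fun n => by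
    rw [Complex.nonneg_iff]; simp [(h n).1, (h n).2.1]
  have h2 := hL.1 ((b : ℂ) • 1 - f) fun n => by
    rw [Complex.nonneg_iff]; simp [(h n).1, (h n).2.2]
  rw [map_sub, map_smul, hL.2.2, Complex.nonneg_iff] at h1 h2
  simp at h1 h2
  exact ⟨h1.1, h2.1⟩

theorem result [TopologicalSpace.SeparableSpace H] (hH : ¬ FiniteDimensional ℂ H)
    (T A : H →L[ℂ] H) (hT : ∃ M : ℝ, ∀ n : ℕ, ‖T ^ n‖ ≤ M) (L : (ℕ →ᵇ ℂ) →ₗ[ℂ] ℂ)
    (hL : IsBanachLimit L) (hA : A.IsPositive) (hTA : IsAsymLimit L T A) (t : ℝ) (ht : 0 < t)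
    (hs : essSpec A = {(t : ℂ)}) : t = 1 := by
  obtain ⟨M0, hM0⟩ := hT
  set M := max M0 1
  have hM : ∀ n, ‖T ^ n‖ ≤ M := fun n => (hM0 n).trans (le_max_left _ _)
  have hMpos : 0 < M := one_pos.trans_le (le_max_right _ _)
  have hK := compact_of_ess A hA.isSelfAdjoint.isStarNormal t hs.le
  obtain ⟨e, he⟩ : ∃ e : ℕ → H, Orthonormal ℂ e := by
    obtain ⟨w, b, hb⟩ := exists_hilbertBasis ℂ H
    have hw : w.Infinite := by
      intro hf
      apply hH
      have := hf.fintype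
      exact Module.Finite.of_basis b.toOrthonormalBasis.toBasis
    exact ⟨_, b.orthonormal.comp _ hw.natEmbedding.injective⟩
  let F : H → ℕ →ᵇ ℂ := fun x => BoundedContinuousFunction.ofNormedAddCommGroupDiscrete
    (fun n => ⟪(T ^ n) x, (T ^ n) x⟫_ℂ) ((M * ‖x‖) ^ 2) fun n => by
      rw [inner_self_eq_norm_sq_to_K, norm_pow]
      simp only [Complex.coe_algebraMap, Complex.norm_real, norm_norm]
      gcongr
      exact ((T ^ n).le_opNorm x).trans (by gcongr; exact hM n)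
  have hF : ∀ x, ⟪x, A x⟫_ℂ = L (F x) := fun x => hTA x x _ fun _ => rfl
  have inv1 : ∀ x, ⟪T x, A (T x)⟫_ℂ = ⟪x, A x⟫_ℂ := fun x => by
    rw [hF, hF]
    exact hL.2.1 _ _ fun n => by
      change ⟪(T ^ n) (T x), (T ^ n) (T x)⟫_ℂ = ⟪(T ^ (n + 1)) x, (T ^ (n + 1)) x⟫_ℂ
      rw [pow_succ]; rfl
  have inv : ∀ n x, ⟪(T ^ n) x, A ((T ^ n) x)⟫_ℂ = ⟪x, A x⟫_ℂ := by
    intro n
    induction n with
    | zero => intro x; rfl
    | succ n ih => intro x; rw [pow_succ', ← ih x, ← inv1 ((T ^ n) x)]; rfl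
  have key : ∀ ε > 0, |1 - t| * (t - ε) ≤ ε := by
    intro ε hε
    obtain ⟨N, hN, h⟩ := avg _ hK M hMpos e he ε hε
    have hN' : (0 : ℝ) < N := by exact_mod_cast hN
    set S : ℂ := ∑ j ∈ Finset.range N, ⟪e j, A (e j)⟫_ℂ with hS
    let G : ℕ →ᵇ ℂ := (t : ℂ) • ∑ j ∈ Finset.range N, F (e j)
    have hG : ∀ n, G n = ((t * ∑ j ∈ Finset.range N, ‖(T ^ n) (e j)‖ ^ 2 : ℝ) : ℂ) := by
      intro n
      simp [G, F, inner_self_eq_norm_sq_to_K]
    have h1 : ∀ n, |S.re - (G n).re| ≤ ε * N := by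
      intro n
      refine le_trans ?_ (h (T ^ n) (hM n))
      rw [← Complex.sub_re]
      refine (Complex.abs_re_le_norm _).trans (le_trans (le_of_eq ?_) (norm_sum_le _ _))
      congr 1
      rw [hG, hS]
      push_cast
      rw [Finset.mul_sum, ← Finset.sum_sub_distrib]
      refine Finset.sum_congr rfl fun j _ => ?_
      rw [← inv n (e j)]
      simp [inner_sub_right, inner_smul_right, inner_self_eq_norm_sq_to_K]
    have h2 := L_bound hL G (S.re - ε * N) (S.re + ε * N) fun n =>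
      ⟨by rw [hG, Complex.ofReal_im], by linarith [(abs_le.1 (h1 n)).2],
        by linarith [(abs_le.1 (h1 n)).1]⟩
    have h3 : (L G).re = t * S.re := by
      simp only [G, map_smul, map_sum, ← hF, ← hS]
      simp
    have h4 := h1 0
    rw [hG, Complex.ofReal_re] at h4
    simp only [pow_zero, ContinuousLinearMap.one_apply, he.1 _, one_pow, Finset.sum_const,
      Finset.card_range, nsmul_eq_mul, mul_one] at h4
    rw [h3] at h2
    have h5 := (abs_le.1 h4).1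
    refine le_of_mul_le_mul_right ?_ hN'
    rcases abs_cases (1 - t) with c | c <;> rw [c.1] <;> nlinarith [h2.1, h2.2, c.2]
  by_contra hne
  have h0 : 0 < |1 - t| := abs_pos.2 (sub_ne_zero.2 (Ne.symm hne))
  have := key (|1 - t| * t / (2 * (|1 - t| + 1))) (by positivity)
  set a := |1 - t|
  have e2 : a * t / (2 * (a + 1)) * (a + 1) = a * t / 2 := by field_simp
  nlinarith [mul_pos h0 ht]

end Pool.Agent.Results.MP_fdf6c3_an.One
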